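import Pool.Agent.Helper62.GX.Stm
import Pool.Agent.Helper82.CX.Data

/-! # Packages G3 (G_Data) and G4 (G_Half) -/

set_option autoImplicit false
set_option linter.unusedSectionVars false

open Polynomial Matrix Finset

namespace Pool.Agent.Helper38.GX

open Pool.Agent.Helper62.BM Pool.Agent.Helper62.BW Pool.Agent.Helper62.BX Pool.Agent.Helper62.CX
  Pool.Agent.Helper62.VX Pool.Agent.Helper62.GX Pool.Agent.Helper82.CX

section

variable {ι : Type} [Fintype ι] [DecidableEq ι] {A : Type} [CommRing A] [IsDomain A]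
  {nd : ι → ℕ} {i₁ i₂ : ι} {a : ι → A[X][X]} {t₀ x₀ : A} {a₁ : ι → A[X]}

/-- The degrees of the `a₁ l`. -/
theorem node_deg (hG : GenG nd a) (hN : NodeG i₁ i₂ a t₀ x₀ a₁) (l : ι) :
    (a₁ l).Monic ∧ (a₁ l).natDegree + (if l = i₁ ∨ l = i₂ then 1 else 0) = nd l := by
  obtain ⟨h1, h2⟩ := hG.1 l
  have h3 := hN.2.1 l
  by_cases h : l = i₁ ∨ l = i₂
  · rw [if_pos h] at h3 ⊢
    obtain ⟨h4, h5⟩ := factor h1 h2 h3
    exact ⟨h4, by omega⟩
  · rw [if_neg h] at h3 ⊢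
    rw [← h3]
    exact ⟨h1.map _, by rw [h1.natDegree_map, h2, add_zero]⟩

theorem sum_ind (h : i₁ ≠ i₂) : ∑ l, (if l = i₁ ∨ l = i₂ then 1 else 0 : ℕ) = 2 := by
  rw [Finset.sum_boole]
  have h1 : (univ.filter fun l => l = i₁ ∨ l = i₂) = {i₁, i₂} := by
    ext l; simp
  rw [h1, Finset.card_pair h]
  rfl

theorem node_sum (hG : GenG nd a) (hN : NodeG i₁ i₂ a t₀ x₀ a₁) :
    ∑ l, (a₁ l).natDegree + 2 = ∑ l, nd l := by
  rw [← sum_ind hN.1, ← Finset.sum_add_distrib]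
  exact Finset.sum_congr rfl fun l _ => (node_deg hG hN l).2

theorem erase_mon (h : ∀ l, (a₁ l).Monic) (l : ι) : (∏ j ∈ univ.erase l, a₁ j).Monic ∧
    (a₁ l).natDegree + (∏ j ∈ univ.erase l, a₁ j).natDegree = ∑ j, (a₁ j).natDegree := by
  have h1 : (∏ j ∈ univ.erase l, a₁ j).Monic := monic_prod_of_monic _ _ fun j _ => h j
  refine ⟨h1, ?_⟩
  rw [natDegree_prod_of_monic _ _ fun j _ => h j]
  exact Finset.add_sum_erase univ (fun j => (a₁ j).natDegree) (mem_univ l)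

theorem lam_deg (c : ι → ℕ) (h : ∀ l, (a₁ l).Monic) :
    (LamG c a₁ fun j => derivative (a₁ j)).natDegree ≤ ∑ j, (a₁ j).natDegree - 1 := by
  unfold LamG
  refine natDegree_sum_le_of_forall_le _ _ fun l _ => ?_
  obtain ⟨h1, h2⟩ := erase_mon h l
  obtain ⟨h3, -⟩ := der_mul (a₁ l) (∏ j ∈ univ.erase l, a₁ j) (h l) h1
  rw [h2] at h3
  rw [mul_assoc]
  exact (natDegree_mul_le.trans (by rw [natDegree_natCast, zero_add])).trans h3

theorem lam_coeff (c : ι → ℕ) (h : ∀ l, (a₁ l).Monic) :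
    (LamG c a₁ fun j => derivative (a₁ j)).coeff (∑ j, (a₁ j).natDegree - 1) =
      ((∑ l, c l * (a₁ l).natDegree : ℕ) : A) := by
  unfold LamG
  rw [finsetSum_coeff, Nat.cast_sum]
  refine Finset.sum_congr rfl fun l _ => ?_
  obtain ⟨h1, h2⟩ := erase_mon h l
  obtain ⟨-, h3⟩ := der_mul (a₁ l) (∏ j ∈ univ.erase l, a₁ j) (h l) h1
  rw [h2] at h3
  rw [mul_assoc, coeff_natCast_mul, h3, Nat.cast_mul]

end

theorem g_Data (hLoc : G_Loc) (hRk : G_Rk) : G_Data := by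
  intro ι _ _ A _ _ _ m N ρ nd i₁ i₂ hρ hρm hN2 hN a hG t₀ x₀ a₁ hNd
  obtain ⟨w, P, S, hw, hR⟩ := hLoc ι A m N ρ nd i₁ i₂ hρ hρm hN a hG t₀ x₀ a₁ hNd
  obtain ⟨ν, hν, hRk'⟩ := hRk ι A m N ρ nd i₁ i₂ hρ hρm hN a hG t₀ x₀ a₁ hNd w P S hR
  have hmon : ∀ l, (a₁ l).Monic := fun l => (node_deg hG hNd l).1
  have hsum := node_sum hG hNd
  obtain ⟨U, hU⟩ : ∃ U : A[X], U = LamG (fun j => m - ρ j) a₁ (fun j => derivative (a₁ j)) :=
    ⟨_, rfl⟩
  have hUd : U.natDegree ≤ ∑ j, (a₁ j).natDegree - 1 := by rw [hU]; exact lam_deg _ hmon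
  have hUc0 : U.coeff (∑ j, (a₁ j).natDegree - 1) ≠ 0 := by
    rw [hU, lam_coeff _ hmon, Nat.cast_ne_zero]
    intro h0
    have h1 : ∑ j, (a₁ j).natDegree = 0 := by
      refine Finset.sum_eq_zero fun l hl => ?_
      have h2 := (Finset.sum_eq_zero_iff.1 h0) l hl
      rcases Nat.mul_eq_zero.1 h2 with h3 | h3
      · have := (hρ l).2
        omega
      · exact h3
    omega
  obtain ⟨V, hV⟩ : ∃ V : A[X], V = (X - Polynomial.C x₀) * U := ⟨_, rfl⟩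
  have hVd : V.natDegree < N := by
    have h1 : V.natDegree ≤ 1 + U.natDegree := by
      rw [hV]
      refine natDegree_mul_le.trans ?_
      rw [natDegree_X_sub_C]
    omega
  have hV0 : V.eval x₀ = 0 := by
    rw [hV, eval_mul, eval_sub, eval_X, eval_C, sub_self, zero_mul]
  have hVc : V.coeff (N - 1) ≠ 0 := by
    have h1 : N - 1 = (∑ j, (a₁ j).natDegree - 1) + 1 := by omega
    have h2 : U.coeff (∑ j, (a₁ j).natDegree - 1 + 1) = 0 :=
      coeff_eq_zero_of_natDegree_lt (by omega)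
    rw [h1, hV, sub_mul, coeff_sub, coeff_X_mul, coeff_C_mul, h2, mul_zero, sub_zero]
    exact hUc0
  have hm : m ≠ 0 := by have := hρ i₁; omega
  refine ⟨⟨Mc P S, w, t₀, fun i => x₀ ^ (i : ℕ), fun i => V.coeff i,
    (m : A) ^ 2 * (∏ j, a₁ j).eval x₀, (ν : A) * w.eval t₀⟩, P, S, ⟨hG, hN, hR, rfl⟩, hw, ?_, ?_,
    ?_, ?_, ?_, ?_⟩
  · exact mul_ne_zero (pow_ne_zero 2 (Nat.cast_ne_zero.2 hm)) hNd.2.2.2
  · exact mul_ne_zero (Nat.cast_ne_zero.2 hν.ne') hw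
  · intro h
    have h1 := congrFun h ⟨0, by omega⟩
    simp at h1
  · intro h
    have h1 := congrFun h ⟨N - 1, by omega⟩
    exact hVc h1
  · show ∑ i : Fin N, x₀ ^ (i : ℕ) * V.coeff (i : ℕ) = 0
    rw [eval_eq_sum_range' hVd, ← Fin.sum_univ_eq_sum_range (fun i => V.coeff i * x₀ ^ i)] at hV0
    rw [← hV0]
    exact Finset.sum_congr rfl fun i _ => mul_comm _ _
  · intro i j
    have h1 := hRk' i j
    rw [← hU, ← hV] at h1
    exact h1

theorem g_Half (hData : V_Data) : G_Half := by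
  intro ι _ _ A _ _ _ g nd i₁ i₂ hg hN a hG t₀ x₀ a₁ hNd
  have hF : Gen g (∏ l, a l) := by
    refine ⟨monic_prod_of_monic _ _ fun l _ => (hG.1 l).1, ?_, hG.2⟩
    rw [natDegree_prod_of_monic _ _ fun l _ => (hG.1 l).1, hN]
    exact Finset.sum_congr rfl fun l _ => (hG.1 l).2
  refine hData A g hg _ hF t₀ x₀ (∏ l, a₁ l) ⟨?_, hNd.2.2.1, hNd.2.2.2⟩
  rw [Polynomial.map_prod]
  have h1 : ∀ l, (a l).map (evalRingHom t₀) =
      (X - Polynomial.C x₀) ^ (if l = i₁ ∨ l = i₂ then 1 else 0 : ℕ) * a₁ l := by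
    intro l
    rw [hNd.2.1 l]
    split_ifs
    · rw [pow_one]
    · rw [pow_zero, one_mul]
  rw [Finset.prod_congr rfl fun l _ => h1 l, Finset.prod_mul_distrib, Finset.prod_pow_eq_pow_sum,
    sum_ind hNd.1]

end Pool.Agent.Helper38.GX
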